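import Mathlib
import Pool.Agent.Lib.MP_793ea6_al.CofB

/-!
The relation algebra `33_65` has a square representation on `n` points for every large `n`.
Atoms are numbered `0 = 1'` (identity), `1 = a`, `2 = b`, `3 = c`; the elements of the algebra are
the sets of atoms, with the Boolean operations of sets; all atoms are symmetric, so converse is the
identity map of the algebra.
-/

namespace Pool.Agent.Results.MP_793ea6_al.CofiniteSpectrum

/-- The forbidden diversity cycles: the multiset of atoms is `ccc`, `bcc` or `bbc`. -/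
def Forbidden (x y z : Fin 4) : Prop :=
  ({x, y, z} : Multiset (Fin 4)) = {3, 3, 3} ∨ ({x, y, z} : Multiset (Fin 4)) = {2, 3, 3} ∨
    ({x, y, z} : Multiset (Fin 4)) = {2, 2, 3}

/-- The atom `z` lies below the composition of the atoms `x` and `y`. -/
def Below (x y z : Fin 4) : Prop :=
  if x = 0 then z = y else if y = 0 then z = x else if z = 0 then x = y else ¬ Forbidden x y z

/-- Composition in `33_65`. -/
def raComp (X Y : Set (Fin 4)) : Set (Fin 4) := {z | ∃ x ∈ X, ∃ y ∈ Y, Below x y z}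

theorem below_iff (x y z : Fin 4) (hx : x ≠ 0) (hy : y ≠ 0) (hz : z ≠ 0) :
    Below x y z ↔ (x = 1 ∨ y = 1 ∨ z = 1 ∨ (x = 2 ∧ y = 2 ∧ z = 2)) := by
  unfold Below Forbidden
  revert x y z
  decide

open Pool.Agent.Lib.MP_793ea6_al in
theorem result : ∃ N : ℕ, ∀ n : ℕ, N ≤ n → ∃ h : Set (Fin 4) → SetRel (Fin n) (Fin n),
    Function.Injective h ∧
    (∀ X Y, h (X ∪ Y) = h X ∪ h Y) ∧
    (∀ X, h (X)ᶜ = (h X)ᶜ) ∧
    (∀ X Y, h (raComp X Y) = SetRel.comp (h X) (h Y)) ∧
    (∀ X, SetRel.inv (h X) = h X) ∧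
    h {0} = SetRel.id := by
  obtain ⟨N, hN0, hN⟩ := Cof.exists_good_large
  refine ⟨N, fun n hn => ?_⟩
  obtain ⟨c, h0, h1, h2, h3, h4⟩ := hN n hn
  have u₀ : Fin n := ⟨0, by omega⟩
  have tri : ∀ u v w, Below (c u w) (c w v) (c u v) := by
    intro u v w
    by_cases hx : c u w = 0
    · have := (h0 _ _).mp hx
      subst this
      simp [Below, hx]
    by_cases hy : c w v = 0
    · have := (h0 _ _).mp hy
      subst this
      simp [Below, hx, hy]
    by_cases hz : c u v = 0
    · have := (h0 _ _).mp hz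
      subst this
      simp only [Below, hx, hy, hz, if_false, if_true]
      exact h1 _ _
    rw [below_iff _ _ _ hx hy hz]
    rcases fin4_cases _ hx with a | a
    · exact Or.inl a
    rcases fin4_cases _ hy with b | b
    · exact Or.inr (Or.inl b)
    rcases fin4_cases _ hz with d | d
    · exact Or.inr (Or.inr (Or.inl d))
    refine Or.inr (Or.inr (Or.inr ⟨?_, ?_, h2 u v w a b d⟩))
    · exact h2 u w v d (by rw [h1]; exact b) a
    · exact h2 w v u (by rw [h1]; exact a) d b
  have wit : ∀ u v x y, Below x y (c u v) → ∃ w, c u w = x ∧ c w v = y := by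
    intro u v x y hb
    by_cases hx : x = 0
    · subst hx
      exact ⟨u, (h0 _ _).mpr rfl, by simpa [Below] using hb⟩
    by_cases hy : y = 0
    · subst hy
      exact ⟨v, by simpa [Below, hx] using hb, (h0 _ _).mpr rfl⟩
    by_cases hz : c u v = 0
    · have := (h0 _ _).mp hz
      subst this
      have hxy : x = y := by simpa [Below, hx, hy, hz] using hb
      subst hxy
      obtain ⟨w, hw⟩ := h3 u x
      exact ⟨w, hw, (h1 _ _).trans hw⟩
    · exact h4 u v x y (fun h => hz ((h0 _ _).mpr h)) hx hy ((below_iff _ _ _ hx hy hz).mp hb)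
  refine ⟨fun X => {p | c p.1 p.2 ∈ X}, ?_, fun X Y => rfl, fun X => rfl, ?_, ?_, ?_⟩
  · intro X Y hXY
    ext x
    obtain ⟨w, hw⟩ := h3 u₀ x
    have := Set.ext_iff.mp hXY (u₀, w)
    rw [← hw]
    exact this
  · intro X Y
    ext ⟨u, v⟩
    constructor
    · rintro ⟨x, hx, y, hy, hb⟩
      obtain ⟨w, rfl, rfl⟩ := wit u v x y hb
      exact ⟨w, hx, hy⟩
    · rintro ⟨w, hx, hy⟩
      exact ⟨_, hx, _, hy, tri u v w⟩
  · intro X
    ext ⟨u, v⟩
    change c v u ∈ X ↔ c u v ∈ X
    rw [h1]
  · ext ⟨u, v⟩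
    exact h0 u v

end Pool.Agent.Results.MP_793ea6_al.CofiniteSpectrum
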